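import Pool.Agent.Helper60.SB.Defs3
import Pool.Agent.Helper22.SB.F0

/-!
Module U15 of MP_7fc85e_an, stage 2: decomposition into levels.
-/

open Finset MeasureTheory
open scoped ENNReal Real
open Pool.Agent.Helper60.SB

namespace Pool.Agent.Helper30.SB

theorem tor1_prob : IsProbabilityMeasure tor1 := by
  constructor
  unfold tor1
  rw [Measure.smul_apply, Measure.restrict_apply MeasurableSet.univ, Set.univ_inter,
    Real.volume_Ico, sub_zero, smul_eq_mul]
  refine ENNReal.inv_mul_cancel ?_ ENNReal.ofReal_ne_top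
  rw [ne_eq, ENNReal.ofReal_eq_zero, not_le]
  exact Real.two_pi_pos

theorem tor_prob (d : ℕ) : IsProbabilityMeasure (tor d) := by
  have := tor1_prob
  unfold tor
  infer_instance

theorem ex_prod {d : ℕ} (k : Fin d → ℤ) (x : Fin d → ℝ) :
    ex k x = ∏ j, Complex.exp (Complex.I * (k j) * (x j)) := by
  unfold ex
  rw [← Complex.exp_sum, Finset.mul_sum]
  congr 1
  exact Finset.sum_congr rfl fun j _ => by ring

theorem ex_add {d : ℕ} (k l : Fin d → ℤ) (x : Fin d → ℝ) : ex (k + l) x = ex k x * ex l x := by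
  unfold ex
  rw [← Complex.exp_add, ← mul_add, ← Finset.sum_add_distrib]
  congr 2
  refine Finset.sum_congr rfl fun j _ => ?_
  simp only [Pi.add_apply]
  push_cast
  ring

theorem continuous_ex {d : ℕ} (k : Fin d → ℤ) : Continuous (ex k) := by
  unfold ex
  fun_prop

theorem integral_ex {d : ℕ} (k : Fin d → ℤ) :
    ∫ x, ex k x ∂(tor d) = if k = 0 then 1 else 0 := by
  have := tor1_prob
  simp only [ex_prod]
  unfold tor
  rw [MeasureTheory.integral_fintype_prod_eq_prod
    (fun j (y : ℝ) => Complex.exp (Complex.I * (k j) * y))]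
  simp only [Pool.Agent.Helper22.SB.exp_integral]
  by_cases hk : k = 0
  · subst hk
    simp
  · rw [if_neg hk]
    obtain ⟨j, hj⟩ := Function.ne_iff.1 hk
    exact Finset.prod_eq_zero (Finset.mem_univ j) (if_neg hj)

theorem continuous_TT {d : ℕ} (Q : Finset (Fin d → ℤ)) (y : Q × Bool → ℝ) :
    Continuous (TT Q y) := by
  unfold TT
  exact continuous_finsetSum _ fun k _ => continuous_const.mul (continuous_ex _)

theorem integrable_bdd {d : ℕ} (f : (Fin d → ℝ) → ℂ) (hf : Continuous f) (A : ℝ)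
    (hA : ∀ x, ‖f x‖ ≤ A) : Integrable f (tor d) := by
  have := tor_prob d
  exact Integrable.of_bound hf.aestronglyMeasurable A (Filter.Eventually.of_forall hA)

theorem fc_TT {d : ℕ} (Q : Finset (Fin d → ℤ)) (y : Q × Bool → ℝ) (k : Fin d → ℤ) :
    fc (TT Q y) k = if h : k ∈ Q then cco y ⟨k, h⟩ else 0 := by
  unfold fc TT
  simp only [Finset.sum_mul, mul_assoc, ← ex_add]
  rw [integral_finsetSum]
  · simp only [integral_const_mul, integral_ex]
    by_cases h : k ∈ Q
    · rw [dif_pos h, Finset.sum_eq_single ⟨k, h⟩]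
      · simp
      · intro l _ hl
        rw [if_neg, mul_zero]
        intro e
        exact hl (Subtype.ext (by
          have : (l : Fin d → ℤ) = k := by
            rw [← sub_eq_zero, sub_eq_add_neg]; exact e
          exact this))
      · intro h'
        exact absurd (Finset.mem_univ _) h'
    · rw [dif_neg h]
      refine Finset.sum_eq_zero fun l _ => ?_
      rw [if_neg, mul_zero]
      intro e
      have : (l : Fin d → ℤ) = k := by
        rw [← sub_eq_zero, sub_eq_add_neg]; exact e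
      exact h (this ▸ l.2)
  · intro l _
    refine integrable_bdd _ (continuous_const.mul (continuous_ex _)) ‖cco y l‖ fun x => ?_
    rw [norm_mul, norm_ex, mul_one]

/-- the summability used below -/
theorem summable_w (δ b : ℝ) (hδ : 0 < δ) (hb : 0 ≤ b) :
    Summable fun m : ℕ => ((m : ℝ) + 1) ^ b * (2 : ℝ) ^ (-(δ * m)) := by
  -- compare with a power times a geometric sequence
  have h1 : Summable fun m : ℕ => ((m : ℝ)) ^ (⌈b⌉₊) * ((2 : ℝ) ^ (-δ)) ^ m := by
    refine summable_pow_mul_geometric_of_norm_lt_one _ ?_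
    rw [Real.norm_of_nonneg (Real.rpow_nonneg (by norm_num) _)]
    exact Real.rpow_lt_one_of_one_lt_of_neg (by norm_num) (by linarith)
  have h2 := (summable_nat_add_iff 1).2 h1
  have h3 : Summable fun m : ℕ => (2 : ℝ) ^ δ * ((((m + 1 : ℕ) : ℝ)) ^ (⌈b⌉₊) *
      ((2 : ℝ) ^ (-δ)) ^ (m + 1)) := h2.mul_left _
  refine Summable.of_nonneg_of_le (fun m => by positivity) (fun m => ?_) h3
  have h4 : ((m : ℝ) + 1) ^ b ≤ ((m : ℝ) + 1) ^ (⌈b⌉₊) := by
    rw [← Real.rpow_natCast]
    exact Real.rpow_le_rpow_of_exponent_le (by linarith [Nat.cast_nonneg (α := ℝ) m])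
      (Nat.le_ceil b)
  have h5 : (2 : ℝ) ^ (-(δ * m)) = (2 : ℝ) ^ δ * ((2 : ℝ) ^ (-δ)) ^ (m + 1) := by
    rw [← Real.rpow_natCast, ← Real.rpow_mul (by norm_num), ← Real.rpow_add (by norm_num)]
    congr 1
    push_cast
    ring
  rw [h5]
  push_cast
  calc ((m : ℝ) + 1) ^ b * ((2 : ℝ) ^ δ * ((2 : ℝ) ^ (-δ)) ^ (m + 1))
      ≤ ((m : ℝ) + 1) ^ (⌈b⌉₊) * ((2 : ℝ) ^ δ * ((2 : ℝ) ^ (-δ)) ^ (m + 1)) := by gcongr
    _ = _ := by ring

theorem decomp
    (fc_unique : ∀ (d : ℕ) (f : (Fin d → ℝ) → ℂ) (_ : Integrable f (tor d))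
      (_ : ∀ k, fc f k = 0), f =ᵐ[tor d] 0)
    (mem_Qm : ∀ (d m : ℕ) (k : Fin d → ℤ), k ∈ Qm d m ↔ ∑ j, lev k j = m)
    (d : ℕ) (r κ b C : ℝ) (hκ : κ < r) (hb : 0 ≤ b) (hC : 0 ≤ C) :
    ∃ C' : ℝ, ∀ (f : (Fin d → ℝ) → ℂ), Integrable f (tor d) →
      ∀ y : (m : ℕ) → (Qm d m × Bool → ℝ),
      (∀ m, ∀ k : Qm d m, fc f k = (((2 : ℝ) ^ (-(r * m)) : ℝ) : ℂ) * cco (y m) k) →
      (∀ m x, ‖TT (Qm d m) (y m) x‖ ≤ C * ((m : ℝ) + 1) ^ b * (2 : ℝ) ^ (κ * m)) →
      ∀ J : ℕ, ∀ᵐ x ∂(tor d),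
        ‖f x - ∑ m ∈ range J, (((2 : ℝ) ^ (-(r * m)) : ℝ) : ℂ) * TT (Qm d m) (y m) x‖ ≤
          C' * ((J : ℝ) + 1) ^ b * (2 : ℝ) ^ (-((r - κ) * J)) := by
  have hprob := tor_prob d
  set w : ℕ → ℝ := fun m => ((m : ℝ) + 1) ^ b * (2 : ℝ) ^ (-((r - κ) * m)) with hw
  have hws : Summable w := summable_w (r - κ) b (by linarith) hb
  have hw0 : ∀ m, 0 ≤ w m := fun m => by rw [hw]; positivity
  refine ⟨C * ∑' m, w m, fun f hf y hfy hTT J => ?_⟩
  set F : ℕ → (Fin d → ℝ) → ℂ := fun m x =>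
    (((2 : ℝ) ^ (-(r * m)) : ℝ) : ℂ) * TT (Qm d m) (y m) x with hF
  have hFb : ∀ m x, ‖F m x‖ ≤ C * w m := fun m x => by
    rw [hF]
    simp only [norm_mul, Complex.norm_real]
    rw [Real.norm_of_nonneg (by positivity)]
    calc (2 : ℝ) ^ (-(r * m)) * ‖TT (Qm d m) (y m) x‖
        ≤ (2 : ℝ) ^ (-(r * m)) * (C * ((m : ℝ) + 1) ^ b * (2 : ℝ) ^ (κ * m)) := by
          gcongr
          exact hTT m x
      _ = C * ((m : ℝ) + 1) ^ b * ((2 : ℝ) ^ (-(r * m)) * (2 : ℝ) ^ (κ * m)) := by ring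
      _ = C * w m := by
          rw [← Real.rpow_add (by norm_num), hw, ← mul_assoc]
          congr 2
          ring
  have hFs : Summable fun m => C * w m := hws.mul_left C
  have hFc : ∀ m, Continuous (F m) := fun m => continuous_const.mul (continuous_TT _ _)
  set g : (Fin d → ℝ) → ℂ := fun x => ∑' m, F m x with hg
  have hgc : Continuous g := continuous_tsum hFc hFs hFb
  have hFsx : ∀ x, Summable fun m => F m x := fun x =>
    Summable.of_norm_bounded hFs (fun m => hFb m x)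
  have hgb : ∀ x, ‖g x‖ ≤ ∑' m, C * w m := fun x =>
    tsum_of_norm_bounded hFs.hasSum (fun m => hFb m x)
  have hgi : Integrable g (tor d) := integrable_bdd g hgc _ hgb
  have hfcF : ∀ m k, fc (F m) k =
      if k ∈ Qm d m then fc f k else 0 := fun m k => by
    have h1 : fc (F m) k = (((2 : ℝ) ^ (-(r * m)) : ℝ) : ℂ) * fc (TT (Qm d m) (y m)) k := by
      unfold fc
      rw [← integral_const_mul]
      refine integral_congr_ae (Filter.Eventually.of_forall fun x => ?_)
      simp only [hF]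
      ring
    rw [h1, fc_TT]
    by_cases h : k ∈ Qm d m
    · rw [dif_pos h, if_pos h]
      exact (hfy m ⟨k, h⟩).symm
    · rw [dif_neg h, if_neg h, mul_zero]
  have hfcg : ∀ k, fc g k = fc f k := fun k => by
    have h1 : fc g k = ∑' m, fc (F m) k := by
      unfold fc
      have h2 : ∀ m, Integrable (fun x => F m x * ex (-k) x) (tor d) := fun m =>
        integrable_bdd _ ((hFc m).mul (continuous_ex _)) (C * w m) fun x => by
          rw [norm_mul, norm_ex, mul_one]
          exact hFb m x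
      have h3 : Summable fun m => ∫ x, ‖F m x * ex (-k) x‖ ∂(tor d) := by
        refine Summable.of_nonneg_of_le (fun m => integral_nonneg fun x => norm_nonneg _)
          (fun m => ?_) hFs
        have h4 : ∫ x, ‖F m x * ex (-k) x‖ ∂(tor d) ≤ ∫ _, C * w m ∂(tor d) := by
          refine integral_mono (h2 m).norm (integrable_const _) fun x => ?_
          simp only
          rw [norm_mul, norm_ex, mul_one]
          exact hFb m x
        simpa using h4
      rw [integral_tsum_of_summable_integral_norm h2 h3]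
      refine integral_congr_ae (Filter.Eventually.of_forall fun x => ?_)
      simp only [hg]
      rw [tsum_mul_right]
    rw [h1, tsum_eq_single (∑ j, lev k j)]
    · rw [hfcF, if_pos ((mem_Qm _ _ _).2 rfl)]
    · intro m hm
      rw [hfcF, if_neg]
      intro h
      exact hm ((mem_Qm _ _ _).1 h).symm
  have hsub : (fun x => f x - g x) =ᵐ[tor d] 0 := by
    refine fc_unique d _ (hf.sub hgi) fun k => ?_
    have hfk : Integrable (fun x => f x * ex (-k) x) (tor d) := by
      refine hf.mul_bdd (c := 1) (continuous_ex _).aestronglyMeasurable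
        (Filter.Eventually.of_forall fun x => ?_)
      rw [norm_ex]
    have hgk : Integrable (fun x => g x * ex (-k) x) (tor d) := by
      refine hgi.mul_bdd (c := 1) (continuous_ex _).aestronglyMeasurable
        (Filter.Eventually.of_forall fun x => ?_)
      rw [norm_ex]
    have h1 : fc (fun x => f x - g x) k = fc f k - fc g k := by
      unfold fc
      rw [← integral_sub hfk hgk]
      refine integral_congr_ae (Filter.Eventually.of_forall fun x => ?_)
      simp only
      ring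
    rw [h1, hfcg, sub_self]
  filter_upwards [hsub] with x hx
  have hx' : f x = g x := by
    have : f x - g x = 0 := hx
    exact sub_eq_zero.1 this
  have h1 : f x - ∑ m ∈ range J, F m x = ∑' m, F (m + J) x := by
    rw [hx', hg]
    simp only
    rw [← (hFsx x).sum_add_tsum_nat_add J]
    ring
  rw [h1]
  have h2 : ∀ m : ℕ, w (m + J) ≤ ((J : ℝ) + 1) ^ b * (2 : ℝ) ^ (-((r - κ) * J)) * w m := by
    intro m
    simp only [hw]
    have h3 : ((m + J : ℕ) : ℝ) + 1 ≤ ((J : ℝ) + 1) * ((m : ℝ) + 1) := by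
      push_cast
      nlinarith [Nat.cast_nonneg (α := ℝ) m, Nat.cast_nonneg (α := ℝ) J,
        mul_nonneg (Nat.cast_nonneg (α := ℝ) m) (Nat.cast_nonneg (α := ℝ) J)]
    have h4 : (((m + J : ℕ) : ℝ) + 1) ^ b ≤ ((J : ℝ) + 1) ^ b * ((m : ℝ) + 1) ^ b := by
      rw [← Real.mul_rpow (by positivity) (by positivity)]
      exact Real.rpow_le_rpow (by positivity) h3 hb
    have h5 : (2 : ℝ) ^ (-((r - κ) * ((m + J : ℕ) : ℝ))) =
        (2 : ℝ) ^ (-((r - κ) * J)) * (2 : ℝ) ^ (-((r - κ) * m)) := by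
      rw [← Real.rpow_add (by norm_num)]
      congr 1
      push_cast
      ring
    rw [h5]
    calc (((m + J : ℕ) : ℝ) + 1) ^ b *
          ((2 : ℝ) ^ (-((r - κ) * J)) * (2 : ℝ) ^ (-((r - κ) * m)))
        ≤ (((J : ℝ) + 1) ^ b * ((m : ℝ) + 1) ^ b) *
          ((2 : ℝ) ^ (-((r - κ) * J)) * (2 : ℝ) ^ (-((r - κ) * m))) := by gcongr
      _ = _ := by ring
  have h6 : ‖∑' m, F (m + J) x‖ ≤
      ∑' m, C * (((J : ℝ) + 1) ^ b * (2 : ℝ) ^ (-((r - κ) * J)) * w m) := by
    refine tsum_of_norm_bounded (((hws.mul_left _).mul_left C).hasSum) fun m => ?_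
    exact (hFb (m + J) x).trans (mul_le_mul_of_nonneg_left (h2 m) hC)
  refine h6.trans (le_of_eq ?_)
  rw [tsum_mul_left, tsum_mul_left]
  ring

end Pool.Agent.Helper30.SB
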