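import Pool.Agent.Helper60.SB.Defs4
import Pool.Agent.Helper30.SB.U15
import Pool.Agent.Helper34.SB.U10
import Pool.Agent.Helper89.SBU11

/-!
Module M10 of MP_7fc85e_an, stage 3A: decomposition into smooth levels.
-/

open Finset MeasureTheory
open scoped ENNReal Real
open Pool.Agent.Helper60.SB

namespace Pool.Agent.Helper30.SB

theorem mem_Qs {d m : ℕ} {k : Fin d → ℤ} :
    k ∈ Qs d m ↔ ∃ i < d + 1, ∑ j, lev k j = m + i := by
  unfold Qs
  simp only [Finset.mem_biUnion, Finset.mem_range, mem_Qm]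

theorem card_Qs (e : ℕ) : ∃ C ≥ 1, ∀ m, ((Qs (e + 1) m).card : ℝ) ≤
    C * ((m : ℝ) + 1) ^ e * 2 ^ m := by
  refine ⟨((e : ℝ) + 2) * ((e : ℝ) + 2) ^ e * 2 ^ (e + 1), ?_, fun m => ?_⟩
  · have h1 : (1 : ℝ) ≤ (e : ℝ) + 2 := by linarith [Nat.cast_nonneg (α := ℝ) e]
    have h2 : (1 : ℝ) ≤ ((e : ℝ) + 2) ^ e := one_le_pow₀ h1
    have h3 : (1 : ℝ) ≤ 2 ^ (e + 1) := one_le_pow₀ (by norm_num)
    exact one_le_mul_of_one_le_of_one_le (one_le_mul_of_one_le_of_one_le h1 h2) h3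
  · have h1 : ((Qs (e + 1) m).card : ℝ) ≤ ∑ i ∈ range (e + 1 + 1), ((Qm (e + 1) (m + i)).card : ℝ) := by
      unfold Qs
      exact_mod_cast Finset.card_biUnion_le
    refine h1.trans ?_
    have h2 : ∀ i ∈ range (e + 1 + 1), ((Qm (e + 1) (m + i)).card : ℝ) ≤
        ((e : ℝ) + 2) ^ e * 2 ^ (e + 1) * (((m : ℝ) + 1) ^ e * 2 ^ m) := fun i hi => by
      have hi' : i ≤ e + 1 := by
        have := Finset.mem_range.1 hi
        omega
      refine (card_Qm e (m + i)).trans ?_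
      have h3 : ((m + i : ℕ) : ℝ) + 1 ≤ ((e : ℝ) + 2) * ((m : ℝ) + 1) := by
        have h4 : (i : ℝ) ≤ (e : ℝ) + 1 := by exact_mod_cast hi'
        push_cast
        nlinarith [Nat.cast_nonneg (α := ℝ) m, Nat.cast_nonneg (α := ℝ) e,
          mul_nonneg (Nat.cast_nonneg (α := ℝ) m) (Nat.cast_nonneg (α := ℝ) e)]
      have h5 : (((m + i : ℕ) : ℝ) + 1) ^ e ≤ ((e : ℝ) + 2) ^ e * ((m : ℝ) + 1) ^ e := by
        rw [← mul_pow]
        exact pow_le_pow_left₀ (by positivity) h3 e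
      have h6 : (2 : ℝ) ^ (m + i) ≤ 2 ^ (e + 1) * 2 ^ m := by
        rw [← pow_add]
        exact pow_le_pow_right₀ (by norm_num) (by omega)
      calc (((m + i : ℕ) : ℝ) + 1) ^ e * 2 ^ (m + i)
          ≤ (((e : ℝ) + 2) ^ e * ((m : ℝ) + 1) ^ e) * (2 ^ (e + 1) * 2 ^ m) := by gcongr
        _ = _ := by ring
    refine (Finset.sum_le_sum h2).trans (le_of_eq ?_)
    rw [Finset.sum_const, Finset.card_range, nsmul_eq_mul]
    push_cast
    ring

theorem norm_TT_le_sqrt {d : ℕ} (Q : Finset (Fin d → ℤ)) (v : Q × Bool → ℝ) (x : Fin d → ℝ) :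
    ‖TT Q v x‖ ≤ Real.sqrt Q.card * Real.sqrt (∑ i, (v i) ^ 2) := by
  refine (TT_le Q v x).trans ?_
  have h1 : ∀ k : Q, ‖cco v k‖ ^ 2 = v (k, false) ^ 2 + v (k, true) ^ 2 := fun k => by
    have : cco v k = ⟨v (k, false), v (k, true)⟩ := by
      unfold cco
      apply Complex.ext <;> simp
    rw [this, Complex.sq_norm, Complex.normSq_mk]
    ring
  have h2 : ∑ i, (v i) ^ 2 = ∑ k : Q, ‖cco v k‖ ^ 2 := by
    rw [Fintype.sum_prod_type]
    refine Finset.sum_congr rfl fun k _ => ?_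
    rw [h1, Fintype.sum_bool, add_comm]
  rw [h2, ← Real.sqrt_mul (by positivity)]
  refine Real.le_sqrt_of_sq_le ?_
  have h3 := sq_sum_le_card_mul_sum_sq (s := (Finset.univ : Finset Q)) (f := fun k => ‖cco v k‖)
  rw [Finset.card_univ, Fintype.card_coe] at h3
  exact h3

theorem rep_sup (e : ℕ) (r p a C : ℝ) (hp : 2 < p) (ha : 0 ≤ a) (hC : 1 ≤ C) :
    ∃ C' ≥ 1, ∀ f (y : (m : ℕ) → (Qs (e + 1) m × Bool → ℝ)), SRep r p a C f y →
      ∀ m x, ‖TT (Qs (e + 1) m) (y m) x‖ ≤ C' * ((m : ℝ) + 1) ^ ((e : ℝ) + a) *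
        (2 : ℝ) ^ (1 / p * m) := by
  obtain ⟨K, hK1, hK⟩ := card_Qs e
  refine ⟨C + Real.sqrt K * C, ?_, fun f y hy m x => ?_⟩
  · have : 0 ≤ Real.sqrt K * C := by positivity
    linarith
  · obtain ⟨u, v, huv, hu, hv⟩ := hy.2.2.2 m ((2 : ℝ) ^ (1 / p * m))
      (Real.one_le_rpow (by norm_num) (by positivity))
    have hm1 : (1 : ℝ) ≤ (m : ℝ) + 1 := by linarith [Nat.cast_nonneg (α := ℝ) m]
    rw [huv, TT_add]
    have h1 : ‖TT (Qs (e + 1) m) u x‖ ≤ C * ((m : ℝ) + 1) ^ ((e : ℝ) + a) *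
        (2 : ℝ) ^ (1 / p * m) := by
      refine (hu x).trans ?_
      have h2 : ((m : ℝ) + 1) ^ e ≤ ((m : ℝ) + 1) ^ ((e : ℝ) + a) := by
        rw [← Real.rpow_natCast]
        exact Real.rpow_le_rpow_of_exponent_le hm1 (by linarith)
      calc C * (2 : ℝ) ^ (1 / p * m) * ((m : ℝ) + 1) ^ e
          ≤ C * (2 : ℝ) ^ (1 / p * m) * ((m : ℝ) + 1) ^ ((e : ℝ) + a) := by gcongr
        _ = _ := by ring
    have h3 : ‖TT (Qs (e + 1) m) v x‖ ≤ Real.sqrt K * C * ((m : ℝ) + 1) ^ ((e : ℝ) + a) *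
        (2 : ℝ) ^ (1 / p * m) := by
      refine (norm_TT_le_sqrt _ v x).trans ?_
      rw [← Real.sqrt_mul (by positivity)]
      have h4 : ((Qs (e + 1) m).card : ℝ) * ∑ i, (v i) ^ 2 ≤
          (Real.sqrt K * C * ((m : ℝ) + 1) ^ ((e : ℝ) + a) * (2 : ℝ) ^ (1 / p * m)) ^ 2 := by
        have h5 : ((Qs (e + 1) m).card : ℝ) * ∑ i, (v i) ^ 2 ≤
            (K * ((m : ℝ) + 1) ^ e * 2 ^ m) *
              (C ^ 2 * ((2 : ℝ) ^ (1 / p * m)) ^ (2 - p) * ((m : ℝ) + 1) ^ a) :=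
          mul_le_mul (hK m) hv (Finset.sum_nonneg fun i _ => sq_nonneg _) (by positivity)
        refine h5.trans ?_
        have h6 : (2 : ℝ) ^ m * ((2 : ℝ) ^ (1 / p * m)) ^ (2 - p) =
            ((2 : ℝ) ^ (1 / p * m)) ^ 2 := by
          rw [← Real.rpow_natCast 2 m, ← Real.rpow_natCast _ 2, ← Real.rpow_mul (by norm_num),
            ← Real.rpow_mul (by norm_num), ← Real.rpow_add (by norm_num)]
          congr 1
          have : p ≠ 0 := by linarith
          field_simp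
          push_cast
          ring
        have h7 : ((m : ℝ) + 1) ^ e * ((m : ℝ) + 1) ^ a ≤ (((m : ℝ) + 1) ^ ((e : ℝ) + a)) ^ 2 := by
          rw [← Real.rpow_natCast _ e, ← Real.rpow_add (by linarith), sq]
          exact le_mul_of_one_le_right (by positivity)
            (Real.one_le_rpow hm1 (by positivity))
        have hKs : Real.sqrt K ^ 2 = K := Real.sq_sqrt (by linarith)
        calc (K * ((m : ℝ) + 1) ^ e * 2 ^ m) *
              (C ^ 2 * ((2 : ℝ) ^ (1 / p * m)) ^ (2 - p) * ((m : ℝ) + 1) ^ a)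
            = K * C ^ 2 * (((m : ℝ) + 1) ^ e * ((m : ℝ) + 1) ^ a) *
              ((2 : ℝ) ^ m * ((2 : ℝ) ^ (1 / p * m)) ^ (2 - p)) := by ring
          _ ≤ K * C ^ 2 * ((((m : ℝ) + 1) ^ ((e : ℝ) + a)) ^ 2) *
              ((2 : ℝ) ^ (1 / p * m)) ^ 2 := by
              rw [h6]
              gcongr
          _ = (Real.sqrt K * C * ((m : ℝ) + 1) ^ ((e : ℝ) + a) * (2 : ℝ) ^ (1 / p * m)) ^ 2 := by
              rw [mul_pow, mul_pow, mul_pow, hKs]
      refine (Real.sqrt_le_sqrt h4).trans (le_of_eq ?_)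
      exact Real.sqrt_sq (by positivity)
    refine (norm_add_le _ _).trans ((add_le_add h1 h3).trans (le_of_eq ?_))
    ring

open scoped Classical in
theorem decomp_s (e : ℕ) (r κ b C : ℝ) (hκ : κ < r) (hb : 0 ≤ b) (hC : 0 ≤ C) :
    ∃ C' : ℝ, ∀ (f : (Fin (e + 1) → ℝ) → ℂ), Integrable f (tor (e + 1)) →
      ∀ y : (m : ℕ) → (Qs (e + 1) m × Bool → ℝ),
      (∀ k : Fin (e + 1) → ℤ, fc f k = ∑ m ∈ range (∑ j, lev k j + 1),
        (((2 : ℝ) ^ (-(r * m)) : ℝ) : ℂ) *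
          (if h : k ∈ Qs (e + 1) m then cco (y m) ⟨k, h⟩ else 0)) →
      (∀ m x, ‖TT (Qs (e + 1) m) (y m) x‖ ≤ C * ((m : ℝ) + 1) ^ b * (2 : ℝ) ^ (κ * m)) →
      ∀ J : ℕ, ∀ᵐ x ∂(tor (e + 1)),
        ‖f x - ∑ m ∈ range J, (((2 : ℝ) ^ (-(r * m)) : ℝ) : ℂ) * TT (Qs (e + 1) m) (y m) x‖ ≤
          C' * ((J : ℝ) + 1) ^ b * (2 : ℝ) ^ (-((r - κ) * J)) := by
  have hprob := tor_prob (e + 1)
  set w : ℕ → ℝ := fun m => ((m : ℝ) + 1) ^ b * (2 : ℝ) ^ (-((r - κ) * m)) with hw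
  have hws : Summable w := summable_w (r - κ) b (by linarith) hb
  have hw0 : ∀ m, 0 ≤ w m := fun m => by rw [hw]; positivity
  refine ⟨C * ∑' m, w m, fun f hf y hfy hTT J => ?_⟩
  set F : ℕ → (Fin (e + 1) → ℝ) → ℂ := fun m x =>
    (((2 : ℝ) ^ (-(r * m)) : ℝ) : ℂ) * TT (Qs (e + 1) m) (y m) x with hF
  have hFb : ∀ m x, ‖F m x‖ ≤ C * w m := fun m x => by
    rw [hF]
    simp only [norm_mul, Complex.norm_real]
    rw [Real.norm_of_nonneg (by positivity)]
    calc (2 : ℝ) ^ (-(r * m)) * ‖TT (Qs (e + 1) m) (y m) x‖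
        ≤ (2 : ℝ) ^ (-(r * m)) * (C * ((m : ℝ) + 1) ^ b * (2 : ℝ) ^ (κ * m)) := by
          gcongr
          exact hTT m x
      _ = C * ((m : ℝ) + 1) ^ b * ((2 : ℝ) ^ (-(r * m)) * (2 : ℝ) ^ (κ * m)) := by ring
      _ = C * w m := by
          rw [← Real.rpow_add (by norm_num), hw, ← mul_assoc]
          congr 2
          ring
  have hFs : Summable fun m => C * w m := hws.mul_left C
  have hFc : ∀ m, Continuous (F m) := fun m => continuous_const.mul (continuous_TT _ _)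
  set g : (Fin (e + 1) → ℝ) → ℂ := fun x => ∑' m, F m x with hg
  have hgc : Continuous g := continuous_tsum hFc hFs hFb
  have hFsx : ∀ x, Summable fun m => F m x := fun x =>
    Summable.of_norm_bounded hFs (fun m => hFb m x)
  have hgb : ∀ x, ‖g x‖ ≤ ∑' m, C * w m := fun x =>
    tsum_of_norm_bounded hFs.hasSum (fun m => hFb m x)
  have hgi : Integrable g (tor (e + 1)) := integrable_bdd g hgc _ hgb
  have hfcF : ∀ m k, fc (F m) k = (((2 : ℝ) ^ (-(r * m)) : ℝ) : ℂ) *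
      (if h : k ∈ Qs (e + 1) m then cco (y m) ⟨k, h⟩ else 0) := fun m k => by
    have h1 : fc (F m) k =
        (((2 : ℝ) ^ (-(r * m)) : ℝ) : ℂ) * fc (TT (Qs (e + 1) m) (y m)) k := by
      unfold fc
      rw [← integral_const_mul]
      refine integral_congr_ae (Filter.Eventually.of_forall fun x => ?_)
      simp only [hF]
      ring
    rw [h1, fc_TT]
  have hfcg : ∀ k, fc g k = fc f k := fun k => by
    have h1 : fc g k = ∑' m, fc (F m) k := by
      unfold fc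
      have h2 : ∀ m, Integrable (fun x => F m x * ex (-k) x) (tor (e + 1)) := fun m =>
        integrable_bdd _ ((hFc m).mul (continuous_ex _)) (C * w m) fun x => by
          rw [norm_mul, norm_ex, mul_one]
          exact hFb m x
      have h3 : Summable fun m => ∫ x, ‖F m x * ex (-k) x‖ ∂(tor (e + 1)) := by
        refine Summable.of_nonneg_of_le (fun m => integral_nonneg fun x => norm_nonneg _)
          (fun m => ?_) hFs
        have h4 : ∫ x, ‖F m x * ex (-k) x‖ ∂(tor (e + 1)) ≤ ∫ _, C * w m ∂(tor (e + 1)) := by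
          refine integral_mono (h2 m).norm (integrable_const _) fun x => ?_
          simp only
          rw [norm_mul, norm_ex, mul_one]
          exact hFb m x
        simpa using h4
      rw [integral_tsum_of_summable_integral_norm h2 h3]
      refine integral_congr_ae (Filter.Eventually.of_forall fun x => ?_)
      simp only [hg]
      rw [tsum_mul_right]
    rw [h1, hfy k, tsum_eq_sum (s := range (∑ j, lev k j + 1))]
    · exact Finset.sum_congr rfl fun m _ => hfcF m k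
    · intro m hm
      rw [hfcF, dif_neg, mul_zero]
      intro h
      obtain ⟨i, _, hi⟩ := mem_Qs.1 h
      rw [Finset.mem_range] at hm
      omega
  have hsub : (fun x => f x - g x) =ᵐ[tor (e + 1)] 0 := by
    refine Pool.Agent.Helper89.SB.fc_unique (e + 1) _ (hf.sub hgi) fun k => ?_
    have hfk : Integrable (fun x => f x * ex (-k) x) (tor (e + 1)) := by
      refine hf.mul_bdd (c := 1) (continuous_ex _).aestronglyMeasurable
        (Filter.Eventually.of_forall fun x => ?_)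
      rw [norm_ex]
    have hgk : Integrable (fun x => g x * ex (-k) x) (tor (e + 1)) := by
      refine hgi.mul_bdd (c := 1) (continuous_ex _).aestronglyMeasurable
        (Filter.Eventually.of_forall fun x => ?_)
      rw [norm_ex]
    have h1 : fc (fun x => f x - g x) k = fc f k - fc g k := by
      unfold fc
      rw [← integral_sub hfk hgk]
      refine integral_congr_ae (Filter.Eventually.of_forall fun x => ?_)
      simp only
      ring
    rw [h1, hfcg, sub_self]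
  filter_upwards [hsub] with x hx
  have hx' : f x = g x := by
    have : f x - g x = 0 := hx
    exact sub_eq_zero.1 this
  have h1 : f x - ∑ m ∈ range J, F m x = ∑' m, F (m + J) x := by
    rw [hx', hg]
    simp only
    rw [← (hFsx x).sum_add_tsum_nat_add J]
    ring
  rw [h1]
  have h2 : ∀ m : ℕ, w (m + J) ≤ ((J : ℝ) + 1) ^ b * (2 : ℝ) ^ (-((r - κ) * J)) * w m := by
    intro m
    simp only [hw]
    have h3 : ((m + J : ℕ) : ℝ) + 1 ≤ ((J : ℝ) + 1) * ((m : ℝ) + 1) := by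
      push_cast
      nlinarith [Nat.cast_nonneg (α := ℝ) m, Nat.cast_nonneg (α := ℝ) J,
        mul_nonneg (Nat.cast_nonneg (α := ℝ) m) (Nat.cast_nonneg (α := ℝ) J)]
    have h4 : (((m + J : ℕ) : ℝ) + 1) ^ b ≤ ((J : ℝ) + 1) ^ b * ((m : ℝ) + 1) ^ b := by
      rw [← Real.mul_rpow (by positivity) (by positivity)]
      exact Real.rpow_le_rpow (by positivity) h3 hb
    have h5 : (2 : ℝ) ^ (-((r - κ) * ((m + J : ℕ) : ℝ))) =
        (2 : ℝ) ^ (-((r - κ) * J)) * (2 : ℝ) ^ (-((r - κ) * m)) := by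
      rw [← Real.rpow_add (by norm_num)]
      congr 1
      push_cast
      ring
    rw [h5]
    calc (((m + J : ℕ) : ℝ) + 1) ^ b *
          ((2 : ℝ) ^ (-((r - κ) * J)) * (2 : ℝ) ^ (-((r - κ) * m)))
        ≤ (((J : ℝ) + 1) ^ b * ((m : ℝ) + 1) ^ b) *
          ((2 : ℝ) ^ (-((r - κ) * J)) * (2 : ℝ) ^ (-((r - κ) * m))) := by gcongr
      _ = _ := by ring
  have h6 : ‖∑' m, F (m + J) x‖ ≤
      ∑' m, C * (((J : ℝ) + 1) ^ b * (2 : ℝ) ^ (-((r - κ) * J)) * w m) := by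
    refine tsum_of_norm_bounded (((hws.mul_left _).mul_left C).hasSum) fun m => ?_
    exact (hFb (m + J) x).trans (mul_le_mul_of_nonneg_left (h2 m) hC)
  refine h6.trans (le_of_eq ?_)
  rw [tsum_mul_left, tsum_mul_left]
  ring

end Pool.Agent.Helper30.SB
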