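import Pool.Agent.Helper60.SB.Defs4
import Pool.Agent.Helper30.SB.M10
import Pool.Agent.Helper5.SB.U8

/-!
Module M6 of MP_7fc85e_an, stage 3A: square-summable bounds for the block operators.
-/

open Finset MeasureTheory
open scoped ENNReal Real
open Pool.Agent.Helper60.SB

namespace Pool.Agent.Helper30.SB

/-- Bessel inequality -/
theorem bessel_gen {d : ℕ} (f : (Fin d → ℝ) → ℂ) (hf : MemLp f 2 (tor d))
    (Q : Finset (Fin d → ℤ)) : ∑ k ∈ Q, ‖fc f k‖ ^ 2 ≤ ∫ x, ‖f x‖ ^ 2 ∂(tor d) := by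
  have := tor_prob d
  set v : (Fin d → ℤ) → Lp ℂ 2 (tor d) :=
    fun k => (Pool.Agent.Helper5.SB.memLp_ex k 2).toLp (ex k) with hv
  have hinner : ∀ k l, @inner ℂ _ _ (v k) (v l) = if l = k then 1 else 0 := by
    intro k l
    rw [L2.inner_def]
    have e1 : (fun x => @inner ℂ _ _ (v k x) (v l x)) =ᵐ[tor d] fun x => ex (l - k) x := by
      filter_upwards [(Pool.Agent.Helper5.SB.memLp_ex (d := d) k 2).coeFn_toLp,
        (Pool.Agent.Helper5.SB.memLp_ex (d := d) l 2).coeFn_toLp] with x h1 h2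
      rw [hv]
      simp only
      rw [h1, h2, RCLike.inner_apply, Pool.Agent.Helper5.SB.conj_ex, ← ex_add, sub_eq_add_neg]
    rw [integral_congr_ae e1, integral_ex]
    simp only [sub_eq_zero]
  have ho : Orthonormal ℂ v := by
    rw [orthonormal_iff_ite]
    intro k l
    rw [hinner]
    simp only [eq_comm]
  have hb := ho.sum_inner_products_le (s := Q) (x := hf.toLp f)
  have h2 : ∀ k, @inner ℂ _ _ (v k) (hf.toLp f) = fc f k := by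
    intro k
    rw [L2.inner_def]
    unfold fc
    refine integral_congr_ae ?_
    filter_upwards [(Pool.Agent.Helper5.SB.memLp_ex (d := d) k 2).coeFn_toLp, hf.coeFn_toLp]
      with x h1 h2
    rw [hv]
    simp only
    rw [h1, h2, RCLike.inner_apply, Pool.Agent.Helper5.SB.conj_ex]
  simp_rw [h2] at hb
  refine hb.trans (le_of_eq ?_)
  have h3 : ((‖hf.toLp f‖ ^ 2 : ℝ) : ℂ) = ((∫ x, ‖f x‖ ^ 2 ∂(tor d) : ℝ) : ℂ) := by
    have h4 : @inner ℂ _ _ (hf.toLp f) (hf.toLp f) = ((‖hf.toLp f‖ ^ 2 : ℝ) : ℂ) := by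
      rw [inner_self_eq_norm_sq_to_K]
      push_cast
      rfl
    rw [← h4, L2.inner_def, ← integral_complex_ofReal]
    refine integral_congr_ae ?_
    filter_upwards [hf.coeFn_toLp] with x h1
    rw [h1, inner_self_eq_norm_sq_to_K]
    push_cast
    rfl
  exact_mod_cast h3

theorem mulFam_nonneg {M : ℕ → ℤ → ℂ} {C : ℝ} (hM : MulFam M C) : 0 ≤ C :=
  (norm_nonneg _).trans (hM.2.1 0 0)

/-- the product of multipliers -/
theorem norm_prod_M_le {d : ℕ} {M : ℕ → ℤ → ℂ} {C : ℝ} (hM : MulFam M C) (s : Fin d → ℕ)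
    (k : Fin d → ℤ) : ‖∏ j, M (s j) (k j)‖ ≤ C ^ d := by
  rw [norm_prod]
  calc ∏ j, ‖M (s j) (k j)‖ ≤ ∏ _j : Fin d, C :=
        Finset.prod_le_prod (fun _ _ => norm_nonneg _) (fun j _ => hM.2.1 _ _)
    _ = C ^ d := by simp

open scoped Classical in
/-- the shapes for which the product of the multipliers does not vanish -/
theorem card_near {d : ℕ} (k : Fin d → ℤ) (S : Finset (Fin d → ℕ)) :
    (S.filter fun s => ∀ j, (k j).natAbs.size = s j ∨ (k j).natAbs.size = s j + 1).card ≤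
      2 ^ d := by
  have h1 : (S.filter fun s => ∀ j, (k j).natAbs.size = s j ∨ (k j).natAbs.size = s j + 1) ⊆
      Fintype.piFinset fun j => {(k j).natAbs.size, (k j).natAbs.size - 1} := by
    intro s hs
    rw [Finset.mem_filter] at hs
    rw [Fintype.mem_piFinset]
    intro j
    rw [Finset.mem_insert, Finset.mem_singleton]
    rcases hs.2 j with h | h
    · exact Or.inl h.symm
    · right
      omega
  refine (Finset.card_le_card h1).trans ?_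
  rw [Fintype.card_piFinset]
  calc ∏ j, ({(k j).natAbs.size, (k j).natAbs.size - 1} : Finset ℕ).card
      ≤ ∏ _j : Fin d, 2 := Finset.prod_le_prod' fun j _ => Finset.card_le_two
    _ = 2 ^ d := by simp

open scoped Classical in
/-- pointwise bound for the coefficients -/
theorem norm_coeff_le {d : ℕ} {M : ℕ → ℤ → ℂ} {C : ℝ} (hM : MulFam M C)
    (S : Finset (Fin d → ℕ)) (k : Fin d → ℤ) (φ : (Fin d → ℕ) → ℂ) :
    ‖∑ s ∈ S, (∏ j, M (s j) (k j)) * φ s‖ ^ 2 ≤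
      2 ^ d * (C ^ d) ^ 2 *
        ∑ s ∈ S.filter fun s => ∀ j, (k j).natAbs.size = s j ∨ (k j).natAbs.size = s j + 1,
          ‖φ s‖ ^ 2 := by
  have hC := mulFam_nonneg hM
  set T := S.filter fun s => ∀ j, (k j).natAbs.size = s j ∨ (k j).natAbs.size = s j + 1 with hT
  have h1 : ∑ s ∈ S, (∏ j, M (s j) (k j)) * φ s = ∑ s ∈ T, (∏ j, M (s j) (k j)) * φ s := by
    rw [hT, Finset.sum_filter]
    refine Finset.sum_congr rfl fun s _ => ?_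
    split_ifs with h
    · rfl
    · push Not at h
      obtain ⟨j, hj1, hj2⟩ := h
      rw [Finset.prod_eq_zero (Finset.mem_univ j) (hM.1 _ _ ⟨hj1, hj2⟩), zero_mul]
  rw [h1]
  have h2 : ‖∑ s ∈ T, (∏ j, M (s j) (k j)) * φ s‖ ≤ ∑ s ∈ T, C ^ d * ‖φ s‖ := by
    refine (norm_sum_le _ _).trans (Finset.sum_le_sum fun s _ => ?_)
    rw [norm_mul]
    exact mul_le_mul_of_nonneg_right (norm_prod_M_le hM s k) (norm_nonneg _)
  have h3 : (∑ s ∈ T, C ^ d * ‖φ s‖) ^ 2 ≤ (T.card : ℝ) * ∑ s ∈ T, (C ^ d * ‖φ s‖) ^ 2 :=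
    sq_sum_le_card_mul_sum_sq
  have h4 : (T.card : ℝ) ≤ 2 ^ d := by exact_mod_cast card_near k S
  calc ‖∑ s ∈ T, (∏ j, M (s j) (k j)) * φ s‖ ^ 2
      ≤ (∑ s ∈ T, C ^ d * ‖φ s‖) ^ 2 := by gcongr
    _ ≤ (T.card : ℝ) * ∑ s ∈ T, (C ^ d * ‖φ s‖) ^ 2 := h3
    _ ≤ 2 ^ d * ∑ s ∈ T, (C ^ d * ‖φ s‖) ^ 2 := by gcongr
    _ = 2 ^ d * (C ^ d) ^ 2 * ∑ s ∈ T, ‖φ s‖ ^ 2 := by
        simp_rw [mul_pow]
        rw [← Finset.mul_sum]
        ring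

theorem cco_yb {e : ℕ} (M : ℕ → ℤ → ℂ) (m : ℕ)
    (h : (Fin (e + 1) → ℕ) → (Fin (e + 1) → ℝ) → ℂ) (k : Qs (e + 1) m) :
    cco (yb M m h) k =
      ∑ s ∈ shps (e + 1) m, (∏ j, M (s j) ((k : Fin (e + 1) → ℤ) j)) * fc (h s) k := by
  unfold cco yb
  simp only [Bool.false_eq_true, if_false, if_true]
  exact Complex.re_add_im _

open scoped Classical in
theorem yb_l2 (e : ℕ) (M : ℕ → ℤ → ℂ) (C : ℝ) (hM : MulFam M C) :
    ∃ C' ≥ 1, ∀ (m : ℕ) (h : (Fin (e + 1) → ℕ) → (Fin (e + 1) → ℝ) → ℂ),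
      (∀ s, MemLp (h s) 2 (tor (e + 1))) →
      ∑ i, (yb M m h i) ^ 2 ≤ C' * ∑ s ∈ shps (e + 1) m, ∫ x, ‖h s x‖ ^ 2 ∂(tor (e + 1)) := by
  refine ⟨max 1 (2 ^ (e + 1) * (C ^ (e + 1)) ^ 2), le_max_left _ _, fun m h hh => ?_⟩
  rw [Pool.Agent.Helper5.SB.sum_sq_eq]
  have h1 : ∀ k : Qs (e + 1) m, ‖cco (yb M m h) k‖ ^ 2 ≤ 2 ^ (e + 1) * (C ^ (e + 1)) ^ 2 *
      ∑ s ∈ shps (e + 1) m, ‖fc (h s) k‖ ^ 2 := fun k => by
    rw [cco_yb]
    refine (norm_coeff_le hM (shps (e + 1) m) (k : Fin (e + 1) → ℤ)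
      (fun s => fc (h s) k)).trans ?_
    refine mul_le_mul_of_nonneg_left ?_ (by positivity)
    exact Finset.sum_le_sum_of_subset_of_nonneg (Finset.filter_subset _ _)
      fun _ _ _ => sq_nonneg _
  have h2 : ∀ s, ∑ k : Qs (e + 1) m, ‖fc (h s) k‖ ^ 2 ≤ ∫ x, ‖h s x‖ ^ 2 ∂(tor (e + 1)) :=
    fun s => by
      rw [Finset.sum_coe_sort (Qs (e + 1) m) fun k => ‖fc (h s) k‖ ^ 2]
      exact bessel_gen (h s) (hh s) _
  have h3 : 0 ≤ ∑ s ∈ shps (e + 1) m, ∫ x, ‖h s x‖ ^ 2 ∂(tor (e + 1)) :=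
    Finset.sum_nonneg fun s _ => integral_nonneg fun x => sq_nonneg _
  calc ∑ k : Qs (e + 1) m, ‖cco (yb M m h) k‖ ^ 2
      ≤ ∑ k : Qs (e + 1) m, 2 ^ (e + 1) * (C ^ (e + 1)) ^ 2 *
          ∑ s ∈ shps (e + 1) m, ‖fc (h s) k‖ ^ 2 := Finset.sum_le_sum fun k _ => h1 k
    _ = 2 ^ (e + 1) * (C ^ (e + 1)) ^ 2 *
          ∑ s ∈ shps (e + 1) m, ∑ k : Qs (e + 1) m, ‖fc (h s) k‖ ^ 2 := by
        rw [← Finset.mul_sum, Finset.sum_comm]
    _ ≤ 2 ^ (e + 1) * (C ^ (e + 1)) ^ 2 *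
          ∑ s ∈ shps (e + 1) m, ∫ x, ‖h s x‖ ^ 2 ∂(tor (e + 1)) :=
        mul_le_mul_of_nonneg_left (Finset.sum_le_sum fun s _ => h2 s) (by positivity)
    _ ≤ _ := mul_le_mul_of_nonneg_right (le_max_right _ _) h3

open scoped Classical in
/-- the bound with a fixed function, explicit constant -/
theorem yb_const_aux (e : ℕ) (M : ℕ → ℤ → ℂ) (C : ℝ) (hM : MulFam M C) (m : ℕ)
    (φ : (Fin (e + 1) → ℝ) → ℂ) :
    ∑ i, (yb M m (fun _ => φ) i) ^ 2 ≤ (2 ^ (e + 1) * (C ^ (e + 1)) ^ 2 * 2 ^ (e + 1)) *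
      ∑ k ∈ Qs (e + 1) m, ‖fc φ k‖ ^ 2 := by
  rw [Pool.Agent.Helper5.SB.sum_sq_eq, ← Finset.sum_coe_sort (Qs (e + 1) m)
    fun k => ‖fc φ k‖ ^ 2, Finset.mul_sum]
  refine Finset.sum_le_sum fun k _ => ?_
  rw [cco_yb]
  refine (norm_coeff_le hM (shps (e + 1) m) (k : Fin (e + 1) → ℤ)
    (fun _ => fc φ k)).trans ?_
  rw [Finset.sum_const, nsmul_eq_mul, ← mul_assoc]
  refine mul_le_mul_of_nonneg_right ?_ (sq_nonneg _)
  refine mul_le_mul_of_nonneg_left ?_ (by positivity)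
  exact_mod_cast card_near (k : Fin (e + 1) → ℤ) (shps (e + 1) m)

theorem yb_l2_const (e : ℕ) (M : ℕ → ℤ → ℂ) (C : ℝ) (hM : MulFam M C) :
    ∃ C' ≥ 1, ∀ (m : ℕ) (φ : (Fin (e + 1) → ℝ) → ℂ),
      ∑ i, (yb M m (fun _ => φ) i) ^ 2 ≤ C' * ∑ k ∈ Qs (e + 1) m, ‖fc φ k‖ ^ 2 := by
  refine ⟨max 1 (2 ^ (e + 1) * (C ^ (e + 1)) ^ 2 * 2 ^ (e + 1)), le_max_left _ _,
    fun m φ => ?_⟩
  refine (yb_const_aux e M C hM m φ).trans ?_
  exact mul_le_mul_of_nonneg_right (le_max_right _ _) (Finset.sum_nonneg fun _ _ => sq_nonneg _)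

theorem sum_Qs_le {e : ℕ} (L : ℕ) (φ : (Fin (e + 1) → ℝ) → ℂ) (hφ : MemLp φ 2 (tor (e + 1))) :
    ∑ m ∈ range L, ∑ k ∈ Qs (e + 1) m, ‖fc φ k‖ ^ 2 ≤
      ((e : ℝ) + 2) * ∫ x, ‖φ x‖ ^ 2 ∂(tor (e + 1)) := by
  classical
  have h1 : ∀ m, ∑ k ∈ Qs (e + 1) m, ‖fc φ k‖ ^ 2 ≤
      ∑ i ∈ range (e + 1 + 1), ∑ k ∈ Qm (e + 1) (m + i), ‖fc φ k‖ ^ 2 := fun m => by
    have hd : Set.PairwiseDisjoint (↑(range (e + 1 + 1)) : Set ℕ)
        (fun i => Qm (e + 1) (m + i)) := by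
      intro i _ j _ hij
      rw [Function.onFun, Finset.disjoint_left]
      intro k hk hk'
      rw [mem_Qm] at hk hk'
      omega
    unfold Qs
    rw [← Finset.sum_biUnion hd]
  refine (Finset.sum_le_sum fun m _ => h1 m).trans ?_
  rw [Finset.sum_comm]
  have h2 : ∀ i, ∑ m ∈ range L, ∑ k ∈ Qm (e + 1) (m + i), ‖fc φ k‖ ^ 2 ≤
      ∫ x, ‖φ x‖ ^ 2 ∂(tor (e + 1)) := fun i => by
    rw [← Finset.sum_biUnion]
    · exact bessel_gen φ hφ _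
    · intro m _ m' _ hmm
      rw [Function.onFun, Finset.disjoint_left]
      intro k hk hk'
      rw [mem_Qm] at hk hk'
      omega
  refine (Finset.sum_le_sum fun i _ => h2 i).trans (le_of_eq ?_)
  rw [Finset.sum_const, Finset.card_range, nsmul_eq_mul]
  push_cast
  ring

theorem yb_l2_joint (e : ℕ) (M : ℕ → ℤ → ℂ) (C : ℝ) (hM : MulFam M C) :
    ∃ C' ≥ 1, ∀ (L : ℕ) (φ : (Fin (e + 1) → ℝ) → ℂ), MemLp φ 2 (tor (e + 1)) →
      ∑ m ∈ range L, ∑ i, (yb M m (fun _ => φ) i) ^ 2 ≤ C' * ∫ x, ‖φ x‖ ^ 2 ∂(tor (e + 1)) := by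
  obtain ⟨C₁, hC1, h1⟩ := yb_l2_const e M C hM
  refine ⟨C₁ * ((e : ℝ) + 2), ?_, fun L φ hφ => ?_⟩
  · have : (1 : ℝ) ≤ (e : ℝ) + 2 := by linarith [Nat.cast_nonneg (α := ℝ) e]
    exact one_le_mul_of_one_le_of_one_le hC1 this
  · refine (Finset.sum_le_sum fun m _ => h1 m φ).trans ?_
    rw [← Finset.mul_sum, mul_assoc]
    exact mul_le_mul_of_nonneg_left (sum_Qs_le L φ hφ) (by linarith)

end Pool.Agent.Helper30.SB
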